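import Pool.Agent.Helper264.SemiFred

/-!
# Semi-Fredholm preservers on B(X) need not have form (SF)

`X = ℓ^1 × ℓ^∞`, `E (x, y) = (0, x)`, `φ T = T + ψ T • E` for a functional `ψ` vanishing at `1`,
at `E` and at all compact operators. Adding a multiple of `E` does not change the class of
semi-Fredholm operators.
-/

set_option autoImplicit false
open Filter Topology Submodule Pool.Agent.Helper264.SemiFred

namespace Pool.Agent.Results.MP_d583b7_an.Q2Fails

/-- The ideal of compact operators on `X`. -/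
def compactIdeal (X : Type) [NormedAddCommGroup X] [NormedSpace ℂ X] : Ideal (X →L[ℂ] X) where
  carrier := {T | IsCompactOperator T}
  add_mem' hf hg := hf.add hg
  zero_mem' := isCompactOperator_zero
  smul_mem' A _ hf := hf.clm_comp A

instance (X : Type) [NormedAddCommGroup X] [NormedSpace ℂ X] : (compactIdeal X).IsTwoSided :=
  ⟨fun B hf => IsCompactOperator.comp_clm hf B⟩

/-- The Calkin algebra `B(X) / K(X)`. -/
abbrev Calkin (X : Type) [NormedAddCommGroup X] [NormedSpace ℂ X] : Type :=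
  (X →L[ℂ] X) ⧸ compactIdeal X

/-- The quotient map `B(X) → B(X) / K(X)`. -/
def proj {X : Type} [NormedAddCommGroup X] [NormedSpace ℂ X] (T : X →L[ℂ] X) : Calkin X :=
  Ideal.Quotient.mk (compactIdeal X) T

/-- `τ` is an algebra automorphism or an algebra anti-automorphism of the algebra `A`. -/
def AutOrAnti {A : Type} [Ring A] [Algebra ℂ A] (τ : A → A) : Prop :=
  IsLinearMap ℂ τ ∧ Function.Bijective τ ∧
    ((∀ x y, τ (x * y) = τ x * τ y) ∨ (∀ x y, τ (x * y) = τ y * τ x))

/-- `φ` maps compact operators to compact operators. -/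
def MapsCompact {X : Type} [NormedAddCommGroup X] [NormedSpace ℂ X]
    (φ : (X →L[ℂ] X) → (X →L[ℂ] X)) : Prop :=
  ∀ K : X →L[ℂ] X, IsCompactOperator K → IsCompactOperator (φ K)

/-- Form (SF): compact operators are mapped to compact operators and the induced map on the Calkin
algebra is an algebra automorphism or an algebra anti-automorphism followed by the left
multiplication by an invertible element. -/
def FormSF {X : Type} [NormedAddCommGroup X] [NormedSpace ℂ X]
    (φ : (X →L[ℂ] X) → (X →L[ℂ] X)) : Prop :=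
  MapsCompact φ ∧ ∃ a : Calkin X, IsUnit a ∧ ∃ τ : Calkin X → Calkin X, AutOrAnti τ ∧
    ∀ T : X →L[ℂ] X, proj (φ T) = a * τ (proj T)

/-- The space `ℓ^1 × ℓ^∞`. -/
abbrev X0 : Type := lp (fun _ : ℕ => ℂ) 1 × lp (fun _ : ℕ => ℂ) ⊤

/-- The inclusion of `ℓ^1` in `ℓ^∞`. -/
noncomputable def incl : lp (fun _ : ℕ => ℂ) 1 →L[ℂ] lp (fun _ : ℕ => ℂ) ⊤ :=
  (lp.linearMapOfLE ℂ (fun _ : ℕ => ℂ) (le_top : (1 : ENNReal) ≤ ⊤)).mkContinuous 1 (by
    intro x
    rw [one_mul]
    apply lp.norm_le_of_forall_le (norm_nonneg _)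
    intro i
    rw [lp.coe_linearMapOfLE_apply]
    exact lp.norm_apply_le_norm one_ne_zero x i)

lemma incl_apply (x : lp (fun _ : ℕ => ℂ) 1) (i : ℕ) : (incl x) i = x i := by
  show (lp.linearMapOfLE ℂ (fun _ : ℕ => ℂ) (le_top : (1 : ENNReal) ≤ ⊤) x) i = x i
  rw [lp.coe_linearMapOfLE_apply]

/-- `E (x, y) = (0, x)`. -/
noncomputable def E : X0 →L[ℂ] X0 :=
  (ContinuousLinearMap.inr ℂ _ _).comp (incl.comp (ContinuousLinearMap.fst ℂ _ _))

lemma E_apply (v : X0) : E v = (0, incl v.1) := rfl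

lemma E_sq (v : X0) : E (E v) = 0 := by
  rw [E_apply, E_apply]
  show ((0 : lp (fun _ : ℕ => ℂ) 1), incl 0) = 0
  rw [map_zero]; rfl

/-- Coordinates of the first component. -/
noncomputable def co (i : ℕ) : X0 →L[ℂ] ℂ :=
  (lp.evalCLM ℂ (fun _ : ℕ => ℂ) 1 i).comp (ContinuousLinearMap.fst ℂ _ _)

lemma co_apply (i : ℕ) (v : X0) : co i v = v.1 i := rfl

lemma co_sum (v : X0) (s : Finset ℕ) : ∑ i ∈ s, ‖co i v‖ ≤ ‖v‖ := by
  have h := lp.sum_rpow_le_norm_rpow (p := 1) (by simp) v.1 s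
  simp only [ENNReal.toReal_one, Real.rpow_one] at h
  exact h.trans (norm_fst_le v)

lemma E_bound (v : X0) (t : ℝ) (h : ∀ i, ‖co i v‖ ≤ t) : ‖E v‖ ≤ t := by
  rw [E_apply, Prod.norm_mk, norm_zero]
  have ht : 0 ≤ t := (norm_nonneg _).trans (h 0)
  apply max_le ht
  apply lp.norm_le_of_forall_le ht
  intro i
  rw [incl_apply]
  exact h i

/-- The unit vectors of the second component. -/
noncomputable def ev (i : ℕ) : X0 := (0, lp.single ⊤ i 1)

lemma ev_sum (f : StrongDual ℂ X0) (s : Finset ℕ) : ∑ i ∈ s, ‖f (ev i)‖ ≤ ‖f‖ := by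
  have hsg : ∀ i, ∃ a : ℂ, ‖a‖ ≤ 1 ∧ a * f (ev i) = (‖f (ev i)‖ : ℂ) := by
    intro i
    by_cases h0 : f (ev i) = 0
    · exact ⟨0, by simp, by simp [h0]⟩
    · refine ⟨(‖f (ev i)‖ : ℂ) / f (ev i), ?_, ?_⟩
      · rw [norm_div]; simp [h0]
      · field_simp
  choose a ha1 ha2 using hsg
  let y : lp (fun _ : ℕ => ℂ) ⊤ := ∑ i ∈ s, a i • lp.single ⊤ i (1 : ℂ)
  have hy : ‖y‖ ≤ 1 := by
    apply lp.norm_le_of_forall_le zero_le_one
    intro j
    have : y j = if j ∈ s then a j else 0 := by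
      simp only [y]
      rw [lp.coeFn_sum, Finset.sum_apply]
      simp only [lp.coeFn_smul, Pi.smul_apply, lp.single_apply, smul_eq_mul]
      simp [Pi.single_apply]
    rw [this]
    split_ifs
    · exact ha1 j
    · simp
  have hfy : f (0, y) = ((∑ i ∈ s, ‖f (ev i)‖ : ℝ) : ℂ) := by
    have : ((0, y) : X0) = ∑ i ∈ s, a i • ev i := by
      simp only [y, ev]
      rw [Prod.ext_iff]
      constructor
      · simp [Prod.fst_sum]
      · simp [Prod.snd_sum]
    rw [this, map_sum]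
    push_cast
    apply Finset.sum_congr rfl
    intro i _
    rw [map_smul, smul_eq_mul, ha2]
  have h1 : ‖f (0, y)‖ = ∑ i ∈ s, ‖f (ev i)‖ := by
    rw [hfy, Complex.norm_real, Real.norm_of_nonneg (Finset.sum_nonneg fun i _ => norm_nonneg _)]
  rw [← h1]
  refine (f.le_opNorm _).trans ?_
  have h2 : ‖((0, y) : X0)‖ ≤ 1 := by
    rw [Prod.norm_mk, norm_zero]
    exact max_le zero_le_one hy
  calc ‖f‖ * ‖((0, y) : X0)‖ ≤ ‖f‖ * 1 := by gcongr
    _ = ‖f‖ := mul_one _

lemma dual_bound (f : StrongDual ℂ X0) (t : ℝ) (h : ∀ i, ‖f (ev i)‖ ≤ t) :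
    ‖f.comp E‖ ≤ t := by
  have ht : 0 ≤ t := (norm_nonneg _).trans (h 0)
  apply ContinuousLinearMap.opNorm_le_bound _ ht
  intro v
  have h1 := lp.hasSum_single (p := 1) (by simp) v.1
  have h2 := h1.mapL (f.comp (E.comp (ContinuousLinearMap.inl ℂ _ _)))
  have h3 : ∀ i, (f.comp (E.comp (ContinuousLinearMap.inl ℂ (lp (fun _ : ℕ => ℂ) 1)
      (lp (fun _ : ℕ => ℂ) ⊤)))) (lp.single 1 i (v.1 i)) = v.1 i * f (ev i) := by
    intro i
    show f (0, incl (lp.single 1 i (v.1 i))) = v.1 i * f (ev i)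
    have : ((0 : lp (fun _ : ℕ => ℂ) 1), incl (lp.single 1 i (v.1 i))) = v.1 i • ev i := by
      rw [ev, Prod.smul_mk, smul_zero]
      congr 1
      ext j
      rw [incl_apply, lp.single_apply, lp.coeFn_smul, Pi.smul_apply, lp.single_apply]
      by_cases hj : j = i
      · subst hj; simp
      · simp [hj]
    rw [this, map_smul, smul_eq_mul]
  have h4 : HasSum (fun i => v.1 i * f (ev i)) ((f.comp E) v) := by
    have h2' := h2
    simp only [h3] at h2'
    exact h2'
  have h5 : HasSum (fun i => ‖v.1 i‖ * t) (‖v.1‖ * t) := by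
    have := lp.hasSum_norm (p := 1) (by simp) v.1
    simp only [ENNReal.toReal_one, Real.rpow_one] at this
    exact this.mul_right t
  refine (h4.norm_le_of_bounded h5 ?_).trans ?_
  · intro i
    rw [norm_mul]
    gcongr
    exact h i
  · rw [mul_comm]
    gcongr
    exact norm_fst_le v

/-- Adding a multiple of `E` preserves semi-Fredholm operators. -/
theorem stable (T : X0 →L[ℂ] X0) (k : ℂ) (hT : IsSemiFredholm T) :
    IsSemiFredholm (T + k • E) := by
  obtain ⟨h1, h2 | h2⟩ := hT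
  · have := upper_stable co co_sum T (k • E) (C := ‖k‖ + 1) (by positivity) (by
      intro v t h
      have ht : 0 ≤ t := (norm_nonneg _).trans (h 0)
      rw [_root_.smul_apply, norm_smul]
      have := E_bound v t h
      nlinarith [norm_nonneg k, mul_le_mul_of_nonneg_left this (norm_nonneg k)]) h1 h2
    exact ⟨this.1, Or.inl this.2⟩
  · have := lower_stable ev ev_sum T (k • E) (C := ‖k‖ + 1) (by positivity) (by
      intro f t h
      have ht : 0 ≤ t := (norm_nonneg _).trans (h 0)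
      have h3 : f.comp (k • E) = k • f.comp E :=
        ContinuousLinearMap.ext fun v => by simp
      rw [h3, norm_smul]
      have := dual_bound f t h
      nlinarith [norm_nonneg k, mul_le_mul_of_nonneg_left this (norm_nonneg k)]) h2
    exact ⟨this.1, Or.inr this.2⟩

/-- The projection of `ℓ^∞` onto the even coordinates. -/
noncomputable def ep : lp (fun _ : ℕ => ℂ) ⊤ →L[ℂ] lp (fun _ : ℕ => ℂ) ⊤ :=
  LinearMap.mkContinuous
    { toFun := fun y => ⟨fun i => if Even i then y i else 0, by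
        obtain ⟨C, hC⟩ := memℓp_infty_iff.1 (lp.memℓp y)
        refine memℓp_infty ⟨max C 0, ?_⟩
        rintro _ ⟨i, rfl⟩
        show ‖(if Even i then y i else 0 : ℂ)‖ ≤ max C 0
        split_ifs
        · exact (hC ⟨i, rfl⟩).trans (le_max_left _ _)
        · rw [norm_zero]; exact le_max_right _ _⟩
      map_add' := by
        intro x y
        apply lp.ext
        funext i
        show (if Even i then (x + y) i else 0 : ℂ) =
          (if Even i then x i else 0 : ℂ) + (if Even i then y i else 0 : ℂ)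
        rw [lp.coeFn_add, Pi.add_apply]
        split_ifs <;> simp
      map_smul' := by
        intro a x
        apply lp.ext
        funext i
        show (if Even i then (a • x) i else 0 : ℂ) = a • (if Even i then x i else 0 : ℂ)
        rw [lp.coeFn_smul, Pi.smul_apply]
        split_ifs <;> simp } 1 (by
    intro y
    rw [one_mul]
    apply lp.norm_le_of_forall_le (norm_nonneg _)
    intro i
    show ‖(if Even i then y i else 0 : ℂ)‖ ≤ ‖y‖
    split_ifs
    · exact lp.norm_apply_le_norm ENNReal.top_ne_zero y i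
    · rw [norm_zero]; exact norm_nonneg _)

lemma ep_apply (y : lp (fun _ : ℕ => ℂ) ⊤) (i : ℕ) : (ep y) i = if Even i then y i else 0 := rfl

/-- The projection onto the even coordinates of the second component. -/
noncomputable def P : X0 →L[ℂ] X0 :=
  (ContinuousLinearMap.inr ℂ _ _).comp (ep.comp (ContinuousLinearMap.snd ℂ _ _))

lemma P_apply (v : X0) : P v = (0, ep v.2) := rfl

lemma ep_single_even (i : ℕ) : ep (lp.single ⊤ (2 * i) 1) = lp.single ⊤ (2 * i) (1 : ℂ) := by
  apply lp.ext; funext j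
  rw [ep_apply, lp.single_apply]
  by_cases hj : j = 2 * i
  · subst hj; simp
  · simp [hj]

lemma ep_single_odd (i : ℕ) : ep (lp.single ⊤ (2 * i + 1) (1 : ℂ)) = 0 := by
  apply lp.ext; funext j
  rw [ep_apply, lp.single_apply]
  by_cases hj : j = 2 * i + 1
  · subst hj; simp
  · simp [hj]

lemma P_even (i : ℕ) : P (ev (2 * i)) = ev (2 * i) := by
  rw [P_apply, ev, ep_single_even]

lemma P_odd (i : ℕ) : P (ev (2 * i + 1)) = 0 := by
  rw [P_apply, ev, ep_single_odd]; rfl

lemma P_P (v : X0) : P (P v) = P v := by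
  rw [P_apply, P_apply]
  congr 1
  apply lp.ext; funext j
  rw [ep_apply, ep_apply]
  split_ifs <;> rfl

lemma E_P (v : X0) : E (P v) = 0 := by
  rw [E_apply, P_apply, map_zero]; rfl

lemma E_ev (i : ℕ) : E (ev i) = 0 := by
  rw [E_apply, ev, map_zero]; rfl

/-- The unit vectors of the first component. -/
noncomputable def eu (i : ℕ) : X0 := (lp.single 1 i 1, 0)

lemma incl_single (i : ℕ) : incl (lp.single 1 i 1) = lp.single ⊤ i (1 : ℂ) := by
  apply lp.ext; funext j
  rw [incl_apply, lp.single_apply, lp.single_apply]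

lemma E_eu (i : ℕ) : E (eu i) = ev i := by
  rw [E_apply, eu, incl_single, ev]

lemma norm_ev (i : ℕ) : ‖ev i‖ ≤ 1 := by
  rw [ev, Prod.norm_mk, norm_zero, lp.norm_single (by simp), norm_one]; simp

lemma norm_eu (i : ℕ) : ‖eu i‖ ≤ 1 := by
  rw [eu, Prod.norm_mk, norm_zero, lp.norm_single (by simp), norm_one]; simp

lemma one_le_norm_sub {i j : ℕ} (h : i ≠ j) : 1 ≤ ‖ev i - ev j‖ := by
  have h1 : ev i - ev j = (0, lp.single ⊤ i (1 : ℂ) - lp.single ⊤ j (1 : ℂ)) := by
    rw [ev, ev, Prod.mk_sub_mk, sub_zero]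
  rw [h1, Prod.norm_mk]
  refine le_trans ?_ (le_max_right _ _)
  refine le_trans ?_ (lp.norm_apply_le_norm ENNReal.top_ne_zero _ i)
  rw [lp.coeFn_sub, Pi.sub_apply, lp.single_apply, lp.single_apply]
  simp [h]

/-- A compact operator does not separate bounded sequences. -/
lemma compact_near (K : X0 →L[ℂ] X0) (hK : IsCompactOperator K) (u : ℕ → X0) (hu : ∀ i, ‖u i‖ ≤ 1)
    {η : ℝ} (hη : 0 < η) : ∃ i j, i ≠ j ∧ ‖K (u i) - K (u j)‖ < η := by
  obtain ⟨C, hC, hC2⟩ := hK.image_closedBall_subset_compact (f := K.toLinearMap) 1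
  have hmem : ∀ i, K (u i) ∈ C := fun i => hC2 ⟨u i, by simpa using hu i, rfl⟩
  obtain ⟨a, -, g, hg, hlim⟩ := hC.tendsto_subseq hmem
  have hc := hlim.cauchySeq
  rw [Metric.cauchySeq_iff] at hc
  obtain ⟨N, hN⟩ := hc η hη
  have := hN N le_rfl (N + 1) (by omega)
  rw [dist_eq_norm] at this
  exact ⟨g N, g (N + 1), (hg.injective.ne (by omega)), this⟩

lemma dist_bound (K : X0 →L[ℂ] X0) (hK : IsCompactOperator K) (a b : ℂ) :
    1 / 2 ≤ ‖P - (K + (a • (1 : X0 →L[ℂ] X0) + b • E))‖ := by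
  set A := P - (K + (a • (1 : X0 →L[ℂ] X0) + b • E)) with hA
  have key : ∀ (k : ℕ → ℕ), Function.Injective k → ∀ c : ℂ,
      (∀ i, A (ev (k i)) = c • ev (k i) - K (ev (k i))) → ∀ η : ℝ, 0 < η → ‖c‖ ≤ ‖A‖ + η := by
    intro k hk c hc η hη
    obtain ⟨i, j, hij, hlt⟩ := compact_near K hK (fun i => ev (k i)) (fun i => norm_ev _) hη
    have h1 : A (ev (k i) - ev (k j)) = c • (ev (k i) - ev (k j)) -
        (K (ev (k i)) - K (ev (k j))) := by
      rw [map_sub, hc, hc, smul_sub]; abel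
    have h2 : 1 ≤ ‖ev (k i) - ev (k j)‖ := one_le_norm_sub (hk.ne hij)
    set r := ‖ev (k i) - ev (k j)‖ with hr
    have h3 : ‖c‖ * r ≤ ‖A‖ * r + η := by
      have h4 : c • (ev (k i) - ev (k j)) = A (ev (k i) - ev (k j)) +
          (K (ev (k i)) - K (ev (k j))) := by rw [h1]; abel
      calc ‖c‖ * r = ‖c • (ev (k i) - ev (k j))‖ := (norm_smul _ _).symm
        _ = ‖A (ev (k i) - ev (k j)) + (K (ev (k i)) - K (ev (k j)))‖ := by rw [h4]
        _ ≤ ‖A (ev (k i) - ev (k j))‖ + ‖K (ev (k i)) - K (ev (k j))‖ := norm_add_le _ _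
        _ ≤ ‖A‖ * r + η := add_le_add (A.le_opNorm _) hlt.le
    by_contra hcon
    push Not at hcon
    nlinarith [norm_nonneg A]
  have h1 : ∀ η : ℝ, 0 < η → ‖1 - a‖ ≤ ‖A‖ + η := by
    apply key (fun i => 2 * i) (fun x y h => by simpa using h)
    intro i
    rw [hA]
    simp only [_root_.sub_apply, _root_.add_apply, _root_.smul_apply,
      one_apply_eq_self, P_even, E_ev, smul_zero, sub_smul, one_smul, add_zero]
    abel
  have h2 : ∀ η : ℝ, 0 < η → ‖-a‖ ≤ ‖A‖ + η := by
    apply key (fun i => 2 * i + 1) (fun x y h => by simpa using h)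
    intro i
    rw [hA]
    simp only [_root_.sub_apply, _root_.add_apply, _root_.smul_apply,
      one_apply_eq_self, P_odd, E_ev, smul_zero, neg_smul, add_zero]
    abel
  have h3 : (1 : ℝ) ≤ ‖1 - a‖ + ‖-a‖ := by
    rw [norm_neg]
    have := norm_add_le (1 - a) a
    simpa using this
  have h4 : ‖1 - a‖ ≤ ‖A‖ := le_of_forall_pos_le_add h1
  have h5 : ‖-a‖ ≤ ‖A‖ := le_of_forall_pos_le_add h2
  linarith

lemma exists_dual {V : Type} [NormedAddCommGroup V] [NormedSpace ℂ V] (W : Submodule ℂ V)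
    (hW : IsClosed (W : Set V)) (x : V) (hx : x ∉ W) :
    ∃ f : V →L[ℂ] ℂ, (∀ w ∈ W, f w = 0) ∧ f x ≠ 0 := by
  have : IsClosed (W : Set V) := hW
  have hP2 : (W.mkQL x) ≠ 0 := by
    intro h
    exact hx ((Submodule.Quotient.mk_eq_zero W).1 h)
  obtain ⟨f, hf⟩ := SeparatingDual.exists_ne_zero (R := ℂ) (V := V ⧸ W) hP2
  refine ⟨f.comp W.mkQL, ?_, hf⟩
  intro w hw
  have : W.mkQL w = 0 := (Submodule.Quotient.mk_eq_zero W).2 hw
  show f (W.mkQL w) = 0
  rw [this, map_zero]

/-- A bounded functional on `B(X)` vanishing at the compact operators, at `1` and at `E`, equal to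
`1` at `P`. -/
lemma exists_functional : ∃ ψ : (X0 →L[ℂ] X0) →L[ℂ] ℂ,
    (∀ K : X0 →L[ℂ] X0, IsCompactOperator K → ψ K = 0) ∧ ψ 1 = 0 ∧ ψ E = 0 ∧ ψ P = 1 := by
  let W : Submodule ℂ (X0 →L[ℂ] X0) :=
    compactOperator (RingHom.id ℂ) X0 X0 ⊔ Submodule.span ℂ {(1 : X0 →L[ℂ] X0), E}
  let Wc := W.topologicalClosure
  have hcl : IsClosed (Wc : Set (X0 →L[ℂ] X0)) := W.isClosed_topologicalClosure
  have hP : P ∉ Wc := by
    intro h
    have h' : P ∈ closure (W : Set (X0 →L[ℂ] X0)) := h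
    rw [Metric.mem_closure_iff] at h'
    obtain ⟨w, hw, hlt⟩ := h' (1 / 2) (by norm_num)
    obtain ⟨K, hK, y, hy, rfl⟩ := Submodule.mem_sup.1 hw
    obtain ⟨a, b, rfl⟩ := Submodule.mem_span_pair.1 hy
    rw [dist_eq_norm] at hlt
    exact absurd (dist_bound K hK a b) (not_le.2 hlt)
  obtain ⟨g, hg', hf⟩ := exists_dual Wc hcl P hP
  have hg : ∀ w ∈ W, g w = 0 := fun w hw => hg' w (W.le_topologicalClosure hw)
  refine ⟨(g P)⁻¹ • g, ?_, ?_, ?_, ?_⟩
  · intro K hK
    rw [_root_.smul_apply, hg K (le_sup_left (a := compactOperator (RingHom.id ℂ) X0 X0) hK),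
      smul_zero]
  · rw [_root_.smul_apply, hg 1 (le_sup_right (a := compactOperator (RingHom.id ℂ) X0 X0)
      (Submodule.subset_span (by simp))), smul_zero]
  · rw [_root_.smul_apply, hg E (le_sup_right (a := compactOperator (RingHom.id ℂ) X0 X0)
      (Submodule.subset_span (by simp))), smul_zero]
  · rw [_root_.smul_apply, smul_eq_mul]
    exact inv_mul_cancel₀ hf

/-- The map `T ↦ T + ψ(T) E`. -/
noncomputable def Phi (ψ : (X0 →L[ℂ] X0) →L[ℂ] ℂ) (h : ψ E = 0) :
    (X0 →L[ℂ] X0) ≃L[ℂ] (X0 →L[ℂ] X0) :=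
  ContinuousLinearEquiv.equivOfInverse
    (ContinuousLinearMap.id ℂ _ + ψ.smulRight E) (ContinuousLinearMap.id ℂ _ - ψ.smulRight E)
    (by
      intro T
      simp [h])
    (by
      intro T
      simp [h])

lemma Phi_apply (ψ : (X0 →L[ℂ] X0) →L[ℂ] ℂ) (h : ψ E = 0) (T : X0 →L[ℂ] X0) :
    Phi ψ h T = T + ψ T • E := rfl

lemma Phi_pres (ψ : (X0 →L[ℂ] X0) →L[ℂ] ℂ) (h : ψ E = 0) (T : X0 →L[ℂ] X0) :
    IsSemiFredholm (Phi ψ h T) ↔ IsSemiFredholm T := by
  rw [Phi_apply]
  constructor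
  · intro h1
    have h2 := stable _ (-ψ T) h1
    have h3 : T + ψ T • E + (-ψ T) • E = T := ContinuousLinearMap.ext fun v => by simp
    rwa [h3] at h2
  · exact stable T _

lemma infinite_dim : ¬ FiniteDimensional ℂ X0 := by
  intro hfd
  have hc : IsCompactOperator (1 : X0 →L[ℂ] X0) := by
    have : ProperSpace X0 := FiniteDimensional.proper ℂ X0
    exact ⟨Metric.closedBall 0 1, isCompact_closedBall _ _,
      Metric.closedBall_mem_nhds _ one_pos⟩
  obtain ⟨i, j, hij, hlt⟩ := compact_near 1 hc ev norm_ev one_pos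
  exact absurd (one_le_norm_sub hij) (not_le.2 hlt)

lemma not_compact_of (R : X0 →L[ℂ] X0) (u : ℕ → X0) (hu : ∀ i, ‖u i‖ ≤ 1) (k : ℕ → ℕ)
    (hk : Function.Injective k) (h : ∀ i, R (u i) = ev (k i)) : ¬ IsCompactOperator R := by
  intro hR
  obtain ⟨i, j, hij, hlt⟩ := compact_near R hR u hu one_pos
  rw [h, h] at hlt
  exact absurd (one_le_norm_sub (hk.ne hij)) (not_le.2 hlt)

/-- A functional on `B(X)` vanishing at `E` but not at a certain operator of rank one. -/
noncomputable def psi1 : (X0 →L[ℂ] X0) →L[ℂ] ℂ :=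
  let m : ℕ → (X0 →L[ℂ] X0) →L[ℂ] ℂ := fun i =>
    ((lp.evalCLM ℂ (fun _ : ℕ => ℂ) ⊤ i).comp (ContinuousLinearMap.snd ℂ _ _)).comp
      (ContinuousLinearMap.apply ℂ X0 (eu i))
  m 0 - m 1

lemma psi1_apply (T : X0 →L[ℂ] X0) : psi1 T = (T (eu 0)).2 0 - (T (eu 1)).2 1 := rfl

lemma psi1_E : psi1 E = 0 := by
  rw [psi1_apply, E_eu, E_eu]
  simp [ev]

/-- A rank one operator. -/
noncomputable def K1 : X0 →L[ℂ] X0 := (co 0).smulRight (ev 0)

lemma psi1_K1 : psi1 K1 = 1 := by
  rw [psi1_apply]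
  simp [K1, co_apply, eu, ev]

lemma K1_compact : IsCompactOperator K1 := by
  have h1 : IsCompactOperator ((1 : ℂ →L[ℂ] ℂ).smulRight (ev 0)) :=
    isCompactOperator_of_locallyCompactSpace_rng _
  exact h1.comp_clm (co 0)

/-- The hypotheses on `φ` in Q2: `φ` is linear, preserves the semi-Fredholm operators in both
directions and is surjective up to compact operators. -/
def Q2Hyp {X : Type} [NormedAddCommGroup X] [NormedSpace ℂ X]
    (φ : (X →L[ℂ] X) → (X →L[ℂ] X)) : Prop :=
  IsLinearMap ℂ φ ∧ (∀ T : X →L[ℂ] X, IsSemiFredholm (φ T) ↔ IsSemiFredholm T) ∧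
    ∀ A : X →L[ℂ] X, ∃ B : X →L[ℂ] X, IsCompactOperator (A - φ B)

/-- There is a bounded bijective `φ` as in Q2 which fixes `1` and all compact operators and does
not have form (SF). -/
def FailA (X : Type) [NormedAddCommGroup X] [NormedSpace ℂ X] : Prop :=
  ∃ φ : (X →L[ℂ] X) → (X →L[ℂ] X), Q2Hyp φ ∧ Function.Bijective φ ∧ Continuous φ ∧
    φ 1 = 1 ∧ (∀ K : X →L[ℂ] X, IsCompactOperator K → φ K = K) ∧ ¬ FormSF φ

/-- There is a bounded bijective `φ` as in Q2 which maps some compact operator to a noncompact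
operator. -/
def FailB (X : Type) [NormedAddCommGroup X] [NormedSpace ℂ X] : Prop :=
  ∃ φ : (X →L[ℂ] X) → (X →L[ℂ] X), Q2Hyp φ ∧ Function.Bijective φ ∧ Continuous φ ∧
    ¬ MapsCompact φ

lemma hyp_Phi (ψ : (X0 →L[ℂ] X0) →L[ℂ] ℂ) (h : ψ E = 0) : Q2Hyp (Phi ψ h) := by
  refine ⟨⟨fun a b => (Phi ψ h).map_add a b, fun c a => (Phi ψ h).map_smul c a⟩,
    Phi_pres ψ h, ?_⟩
  intro A
  refine ⟨(Phi ψ h).symm A, ?_⟩
  have : A - (Phi ψ h) ((Phi ψ h).symm A) = 0 := by
    rw [(Phi ψ h).apply_symm_apply, sub_self]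
  rw [this]
  exact isCompactOperator_zero

/-- Q2 has a negative answer. On the Banach space `X = ℓ^1 × ℓ^∞` there is a bounded linear
bijection `φ` of `B(X)` onto itself, which preserves the semi-Fredholm operators in both
directions, fixes the identity and every compact operator, and does not have form (SF). There is
also such a `φ` which maps some compact operator to a noncompact one. -/
theorem result : ∃ (X : Type) (_ : NormedAddCommGroup X) (_ : NormedSpace ℂ X),
    CompleteSpace X ∧ ¬ FiniteDimensional ℂ X ∧ FailA X ∧ FailB X := by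
  refine ⟨X0, inferInstance, inferInstance, inferInstance, infinite_dim, ?_, ?_⟩
  · obtain ⟨ψ, h1, h2, h3, h4⟩ := exists_functional
    have hK : ∀ K : X0 →L[ℂ] X0, IsCompactOperator K → Phi ψ h3 K = K := by
      intro K hK
      rw [Phi_apply, h1 K hK]
      exact ContinuousLinearMap.ext fun v => by simp
    have h1' : Phi ψ h3 1 = 1 := by
      rw [Phi_apply, h2]
      exact ContinuousLinearMap.ext fun v => by simp
    refine ⟨Phi ψ h3, hyp_Phi ψ h3, (Phi ψ h3).bijective, (Phi ψ h3).continuous, h1', hK, ?_⟩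
    rintro ⟨-, a, ha, τ, ⟨hlin, hbij, hmul⟩, hτ⟩
    have hP : Phi ψ h3 P = P + E := by rw [Phi_apply, h4, one_smul]
    have hPP : P * P = P := ContinuousLinearMap.ext fun v => P_P v
    have hpm : ∀ S T : X0 →L[ℂ] X0, proj (S * T) = proj S * proj T := fun S T =>
      map_mul (Ideal.Quotient.mk (compactIdeal X0)) S T
    have hp1 : proj (1 : X0 →L[ℂ] X0) = 1 := map_one (Ideal.Quotient.mk (compactIdeal X0))
    -- a surjective (anti)multiplicative map fixes 1
    have hτ1 : τ 1 = 1 := by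
      obtain ⟨e, he⟩ := hbij.2 1
      rcases hmul with hm | hm
      · have := hm e 1
        rw [mul_one, he, one_mul] at this
        exact this.symm
      · have := hm 1 e
        rw [one_mul, he, one_mul] at this
        exact this.symm
    have hsq : ∀ x, τ (x * x) = τ x * τ x := by
      intro x
      rcases hmul with hm | hm <;> exact hm x x
    have hmain : proj ((P + E) * (P + E)) = proj (P + E) := by
      rw [hpm, ← hP]
      have ha1 := hτ 1
      have hP1 := hτ P
      rw [h1', hp1, hτ1, mul_one] at ha1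
      rw [hP1, ← ha1, one_mul, ← hsq, ← hpm, hPP]
    have hmem : (P + E) * (P + E) - (P + E) ∈ compactIdeal X0 :=
      (Ideal.Quotient.mk_eq_mk_iff_sub_mem _ _).1 hmain
    have hcomp : IsCompactOperator ((P + E) - (P + E) * (P + E) : X0 →L[ℂ] X0) := by
      have := (compactIdeal X0).neg_mem hmem
      rwa [neg_sub] at this
    refine not_compact_of _ (fun i => eu (2 * i + 1)) (fun i => norm_eu _) (fun i => 2 * i + 1)
      (fun x y h => by simpa using h) ?_ hcomp
    intro i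
    have hPeu : ∀ j, P (eu j) = 0 := by
      intro j; rw [P_apply, eu, map_zero]; rfl
    show (P + E) (eu (2 * i + 1)) - (P + E) ((P + E) (eu (2 * i + 1))) = ev (2 * i + 1)
    rw [_root_.add_apply P E (eu _), hPeu, E_eu, zero_add, _root_.add_apply, P_odd, E_ev]
    simp
  · refine ⟨Phi psi1 psi1_E, hyp_Phi _ _, (Phi _ _).bijective, (Phi _ _).continuous, ?_⟩
    intro hmc
    have hc := hmc K1 K1_compact
    have h1 : Phi psi1 psi1_E K1 = K1 + E := by rw [Phi_apply, psi1_K1, one_smul]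
    rw [h1] at hc
    have h2 : IsCompactOperator ((K1 + E) - K1 : X0 →L[ℂ] X0) := hc.sub K1_compact
    rw [add_sub_cancel_left] at h2
    exact not_compact_of E eu norm_eu id Function.injective_id E_eu h2

end Pool.Agent.Results.MP_d583b7_an.Q2Fails
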